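import Pool.Agent.Q253.Thin.Sample

/-!
# Sampling with a fixed number of elements: almost all subsets with `w` elements are regular
-/

set_option autoImplicit false

namespace Pool.Agent.Q204.RS

open Finset
open Pool.Agent.Q253.Thin (wt wt_nonneg wt_tail)

/-- the binomial weights -/
def bw (N w k : ℕ) : ℕ := N.choose k * (w ^ k * (N - w) ^ (N - k))

theorem bw_step {N w k : ℕ} (hk : k + 1 ≤ N) (hw : w ≤ N) :
    (k + 1 ≤ w → bw N w k ≤ bw N w (k + 1)) ∧ (w ≤ k → bw N w (k + 1) ≤ bw N w k) := by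
  obtain ⟨d, hd⟩ : ∃ d, N = w + d := ⟨N - w, by omega⟩
  obtain ⟨e, he⟩ : ∃ e, N = k + 1 + e := ⟨N - (k + 1), by omega⟩
  have h1 : N.choose (k + 1) * (k + 1) = N.choose k * (N - k) := Nat.choose_succ_right_eq N k
  have hNw : N - w = d := by omega
  have hNk : N - k = e + 1 := by omega
  have hNk1 : N - (k + 1) = e := by omega
  have a1 : bw N w k * (k + 1) = N.choose k * w ^ k * d ^ e * ((k + 1) * d) := by
    unfold bw
    rw [hNw, hNk, pow_succ]
    ring
  have a2 : bw N w (k + 1) * (k + 1) = N.choose k * w ^ k * d ^ e * ((e + 1) * w) := by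
    unfold bw
    rw [hNw, hNk1, pow_succ]
    calc N.choose (k + 1) * (w ^ k * w * d ^ e) * (k + 1) = (N.choose (k + 1) * (k + 1)) * (w ^ k * w * d ^ e) := by
          ring
      _ = _ := by
          rw [h1, hNk]
          ring
  constructor
  · intro h
    have h2 : (k + 1) * d ≤ (e + 1) * w := by
      obtain ⟨f, hf⟩ : ∃ f, w = k + 1 + f := ⟨w - (k + 1), by omega⟩
      have he' : e = f + d := by omega
      rw [hf, he']
      nlinarith
    have h3 : bw N w k * (k + 1) ≤ bw N w (k + 1) * (k + 1) := by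
      rw [a1, a2]
      exact Nat.mul_le_mul_left _ h2
    exact Nat.le_of_mul_le_mul_right h3 (by omega)
  · intro h
    have h2 : (e + 1) * w ≤ (k + 1) * d := by
      obtain ⟨f, hf⟩ : ∃ f, k = w + f := ⟨k - w, by omega⟩
      have hd' : d = f + 1 + e := by omega
      rw [hf, hd']
      nlinarith
    have h3 : bw N w (k + 1) * (k + 1) ≤ bw N w k * (k + 1) := by
      rw [a1, a2]
      exact Nat.mul_le_mul_left _ h2
    exact Nat.le_of_mul_le_mul_right h3 (by omega)

theorem bw_max {N w : ℕ} (hw : w ≤ N) : ∀ k : ℕ, k ≤ N → bw N w k ≤ bw N w w := by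
  have up : ∀ j : ℕ, w + j ≤ N → bw N w (w + j) ≤ bw N w w := by
    intro j
    induction j with
    | zero => intro _; exact le_rfl
    | succ j ih =>
      intro h
      have h1 := (bw_step (N := N) (w := w) (k := w + j) (by omega) hw).2 (by omega)
      exact h1.trans (ih (by omega))
  have down : ∀ j : ℕ, j ≤ w → bw N w (w - j) ≤ bw N w w := by
    intro j
    induction j with
    | zero => intro _; exact le_rfl
    | succ j ih =>
      intro h
      have h1 := (bw_step (N := N) (w := w) (k := w - (j + 1)) (by omega) hw).1 (by omega)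
      rw [show w - (j + 1) + 1 = w - j by omega] at h1
      exact h1.trans (ih (by omega))
  intro k hk
  rcases Nat.le_total w k with h | h
  · obtain ⟨j, rfl⟩ : ∃ j, k = w + j := ⟨k - w, by omega⟩
    exact up j hk
  · obtain ⟨j, hj, rfl⟩ : ∃ j, j ≤ w ∧ k = w - j := ⟨w - k, by omega, by omega⟩
    exact down j hj

/-- the most likely value of a binomial variable -/
theorem bw_mode {N w : ℕ} (hw : w ≤ N) : N ^ N ≤ (N + 1) * bw N w w := by
  have h1 : N ^ N = ∑ k ∈ range (N + 1), bw N w k := by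
    have h2 := add_pow w (N - w) N
    rw [show w + (N - w) = N by omega] at h2
    rw [h2]
    apply sum_congr rfl
    intro k _
    unfold bw
    rw [mul_comm]
    rfl
  rw [h1]
  calc ∑ k ∈ range (N + 1), bw N w k ≤ ∑ _k ∈ range (N + 1), bw N w w := by
        apply sum_le_sum
        intro k hk
        rw [mem_range] at hk
        exact bw_max hw k (by omega)
    _ = _ := by rw [sum_const, card_range, smul_eq_mul]

theorem sum_biUnion_le_sum_sum {α ι : Type*} [DecidableEq α] {P : Finset α} (I : Finset ι)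
    (B : ι → Finset (Finset α)) (p : ℝ) (hp : 0 ≤ p) (hp1 : p ≤ 1) :
    ∑ S ∈ I.biUnion B, wt P p S ≤ ∑ i ∈ I, ∑ S ∈ B i, wt P p S := by
  classical
  induction I using Finset.induction_on with
  | empty => simp
  | insert a I ha ih =>
    rw [biUnion_insert, sum_insert ha]
    have h1 := sum_union_inter (s₁ := B a) (s₂ := I.biUnion B) (f := fun S => wt P p S)
    have h2 : 0 ≤ ∑ S ∈ B a ∩ I.biUnion B, wt P p S := sum_nonneg fun S _ => wt_nonneg P hp hp1 S
    linarith

/-- **Almost all subsets with `w` elements are regular.** -/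
theorem mostly {α ι : Type*} [DecidableEq α] (P : Finset α) (I : Finset ι) (R : ι → Finset α)
    (hR : ∀ i ∈ I, R i ⊆ P) {w : ℕ} (hw : w ≤ P.card) (hP : 0 < P.card) {ε : ℝ} (hε : 0 < ε) (hε1 : ε ≤ 1)
    (U : ι → ℝ) (hU : ∀ i ∈ I, (w / P.card : ℝ) * (R i).card ≤ U i) (L : ℝ)
    (hL : ∀ i ∈ I, 4 * L ≤ ε ^ 2 * U i) :
    (((powersetCard w P).filter
      (fun S => ¬ ∀ i ∈ I, |((S ∩ R i).card : ℝ) - (w / P.card : ℝ) * (R i).card| ≤ ε * U i)).card : ℝ) ≤
      (P.card.choose w : ℝ) * ((P.card + 1) * (2 * I.card * Real.exp (-L))) := by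
  classical
  set N := P.card with hN
  have hN0 : (0 : ℝ) < N := by exact_mod_cast hP
  set p : ℝ := w / N with hp
  have hp0 : 0 ≤ p := by positivity
  have hp1 : p ≤ 1 := by
    rw [hp, div_le_one hN0]
    exact_mod_cast hw
  set Bd := (powersetCard w P).filter
      (fun S => ¬ ∀ i ∈ I, |((S ∩ R i).card : ℝ) - p * (R i).card| ≤ ε * U i) with hBd
  set β : ℝ := p ^ w * (1 - p) ^ (N - w) with hβ
  have hwt : ∀ S ∈ Bd, wt P p S = β := by
    intro S hS
    rw [hBd, mem_filter, mem_powersetCard] at hS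
    obtain ⟨⟨h1, h2⟩, -⟩ := hS
    unfold wt
    rw [prod_const, prod_const, h2, card_sdiff_of_subset h1, h2]
  have hsum : (Bd.card : ℝ) * β ≤ 2 * I.card * Real.exp (-L) := by
    have h1 : (Bd.card : ℝ) * β = ∑ S ∈ Bd, wt P p S := by
      rw [sum_congr rfl hwt, sum_const, nsmul_eq_mul]
    rw [h1]
    have h2 : Bd ⊆ I.biUnion (fun i => P.powerset.filter
        (fun S => ε * U i < |((S ∩ R i).card : ℝ) - p * (R i).card|)) := by
      intro S hS
      rw [hBd, mem_filter, mem_powersetCard] at hS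
      obtain ⟨⟨h1, h2⟩, h3⟩ := hS
      push Not at h3
      obtain ⟨i, hi, h4⟩ := h3
      rw [mem_biUnion]
      exact ⟨i, hi, mem_filter.2 ⟨mem_powerset.2 h1, h4⟩⟩
    refine (sum_le_sum_of_subset_of_nonneg h2 (fun S _ _ => wt_nonneg P hp0 hp1 S)).trans ?_
    refine (sum_biUnion_le_sum_sum I _ _ hp0 hp1).trans ?_
    have h3 : ∀ i ∈ I, ∑ S ∈ P.powerset.filter (fun S => ε * U i < |((S ∩ R i).card : ℝ) - p * (R i).card|),
        wt P p S ≤ 2 * Real.exp (-L) := by
      intro i hi
      refine (wt_tail P (R i) (hR i hi) hp0 hp1 hε hε1 (hU i hi)).trans ?_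
      apply mul_le_mul_of_nonneg_left _ (by norm_num)
      apply Real.exp_le_exp.2
      have := hL i hi
      linarith
    refine (sum_le_sum h3).trans (le_of_eq ?_)
    rw [sum_const, nsmul_eq_mul]
    ring
  have hmode : (1 : ℝ) ≤ (N + 1) * ((N.choose w : ℝ) * β) := by
    have h1 := bw_mode (N := N) (w := w) hw
    have h2 : ((N : ℝ)) ^ N ≤ (N + 1) * ((N.choose w : ℝ) * ((w : ℝ) ^ w * ((N : ℝ) - w) ^ (N - w))) := by
      have h3 : ((N ^ N : ℕ) : ℝ) ≤ (((N + 1) * bw N w w : ℕ) : ℝ) := by exact_mod_cast h1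
      unfold bw at h3
      push_cast [Nat.cast_sub hw] at h3
      exact h3
    have h4 : (w : ℝ) ^ w * ((N : ℝ) - w) ^ (N - w) = β * (N : ℝ) ^ N := by
      rw [hβ, hp, div_pow, show (1 - (w : ℝ) / N) = ((N : ℝ) - w) / N by field_simp, div_pow]
      have h5 : (N : ℝ) ^ N = (N : ℝ) ^ w * (N : ℝ) ^ (N - w) := by
        rw [← pow_add]
        congr 1
        omega
      rw [h5]
      field_simp
    rw [h4] at h2
    have h6 : 0 < (N : ℝ) ^ N := by positivity
    have h7 : (N : ℝ) ^ N * 1 ≤ (N : ℝ) ^ N * ((N + 1) * ((N.choose w : ℝ) * β)) := by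
      calc (N : ℝ) ^ N * 1 = (N : ℝ) ^ N := mul_one _
        _ ≤ _ := h2
        _ = _ := by ring
    exact le_of_mul_le_mul_left h7 h6
  have hB0 : (0 : ℝ) ≤ Bd.card := Nat.cast_nonneg _
  calc (Bd.card : ℝ) = Bd.card * 1 := (mul_one _).symm
    _ ≤ Bd.card * ((N + 1) * ((N.choose w : ℝ) * β)) := mul_le_mul_of_nonneg_left hmode hB0
    _ = (N.choose w : ℝ) * ((N + 1) * (Bd.card * β)) := by ring
    _ ≤ _ := by
        apply mul_le_mul_of_nonneg_left _ (by positivity)
        exact mul_le_mul_of_nonneg_left hsum (by positivity)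

end Pool.Agent.Q204.RS
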