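import Pool.Agent.Q253.Thin.GoldSample
import Pool.Agent.Q204.RS.Mostly

/-!
# Almost all sets of `w` primes represent the good primes of all systems of a large family
-/

set_option autoImplicit false
set_option maxHeartbeats 2000000

namespace Pool.Agent.Q204.RS

open Finset Filter
open Pool.Agent.Y840.CT
open Pool.Agent.Q253.Thin

/-- **Almost all sets of `w` primes of `(A, B]` represent the good primes of all systems of a family.** -/
theorem family (r t : ℕ) (ht : 1 ≤ t) (D G : ℕ) (θ ε : ℝ) (hθ : 0 < θ) (hε : 0 < ε) :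
    ∃ K : ℝ, 0 < K ∧ ∃ X₀ : ℕ, ∀ X : ℕ, X₀ ≤ X → ∀ A B : ℕ, B ≤ X → θ * X ≤ (B : ℝ) - A →
    ∀ (ι : Type) (I : Finset ι) (F : ι → ℕ → Finset ℤ) (h : ι → ℤ) (R : ι → Finset ℕ),
    (∀ i ∈ I, SysF r X (F i) (h i)) → (∀ i ∈ I, R i ⊆ GoodF t X A B (F i) (h i)) → I.card ≤ X ^ D →
    ∀ w : ℕ, K * Real.log X ^ (r + 1) ≤ w → w ≤ (PI A B).card →
    (((powersetCard w (PI A B)).filter (fun S => ¬ ∀ i ∈ I,
      |((S ∩ R i).card : ℝ) - w / (PI A B).card * (R i).card| ≤
        ε * (w / (PI A B).card * (((B : ℝ) - A) * VF (F i) X)))).card : ℝ) * (X : ℝ) ^ G ≤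
      (PI A B).card.choose w := by
  classical
  obtain ⟨C, hC, hup⟩ := upper1 r t ht
  obtain ⟨cV, hcV, hlow⟩ := VF_low r
  obtain ⟨X₁, hX₁⟩ := hup θ hθ
  obtain ⟨X₂, hX₂⟩ := PI_upper
  set ε1 : ℝ := min 1 (ε / C) with hε1
  have hε10 : 0 < ε1 := by positivity
  have hε11 : ε1 ≤ 1 := min_le_left _ _
  have hε13 : ε1 * C ≤ ε := by
    have h1 : ε1 ≤ ε / C := min_le_right _ _
    rwa [le_div_iff₀ hC] at h1
  set K : ℝ := 4 * (G + D + 4) / ε1 ^ 2 * (2 / (C * θ * cV)) with hK
  have hK0 : 0 < K := by positivity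
  refine ⟨K, hK0, max (max X₁ X₂) 3, ?_⟩
  intro X hX A B hBX hAB ι I F h R hS hR hI w hm hmP
  have hX1 : X₁ ≤ X := (le_max_left _ _).trans ((le_max_left _ _).trans hX)
  have hX2 : X₂ ≤ X := (le_max_right _ _).trans ((le_max_left _ _).trans hX)
  have hX3 : 3 ≤ X := (le_max_right _ _).trans hX
  have hXr : (0 : ℝ) < X := by exact_mod_cast (by omega : 0 < X)
  have hX3r : (3 : ℝ) ≤ X := by exact_mod_cast hX3
  have hl1 : 1 ≤ Real.log X := by
    rw [Real.le_log_iff_exp_le hXr]
    have := Real.exp_one_lt_d9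
    linarith
  have hl0 : 0 < Real.log X := by linarith
  have hm0 : (0 : ℝ) < w := lt_of_lt_of_le (by positivity) hm
  have hPn : 0 < (PI A B).card := by
    have : 0 < w := by exact_mod_cast hm0
    omega
  have hP0 : (0 : ℝ) < (PI A B).card := by exact_mod_cast hPn
  have hPu := hX₂ X hX2 A B hBX
  set p : ℝ := w / (PI A B).card with hp
  have hp0 : 0 < p := by positivity
  have hABr : (0 : ℝ) < (B : ℝ) - A := lt_of_lt_of_le (by positivity) hAB
  have hPX : ((PI A B).card : ℝ) ≤ X := by
    have h1 : (PI A B).card ≤ (Ioc A B).card := card_filter_le _ _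
    rw [Nat.card_Ioc] at h1
    exact_mod_cast (by omega : (PI A B).card ≤ X)
  set U : ι → ℝ := fun i => p * (C * (((B : ℝ) - A) * VF (F i) X)) with hUdef
  have hGP : ∀ i ∈ I, R i ⊆ PI A B := by
    intro i hi x hx
    have h1 := hR i hi hx
    unfold GoodF at h1
    rw [mem_filter] at h1
    unfold PI
    rw [mem_filter]
    exact ⟨h1.1, h1.2.1⟩
  have hmost := mostly (PI A B) I R hGP hmP hPn hε10 hε11 U (by
      intro i hi
      rw [← hp]
      apply mul_le_mul_of_nonneg_left _ hp0.le
      refine le_trans ?_ (hX₁ X hX1 (F i) (h i) (hS i hi) A B hBX hAB)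
      exact_mod_cast card_le_card (hR i hi)) ((G + D + 4) * Real.log X) (by
      intro i hi
      show 4 * (((G : ℝ) + D + 4) * Real.log X) ≤ ε1 ^ 2 * (p * (C * (((B : ℝ) - A) * VF (F i) X)))
      have hV := hlow X (by omega) (F i) (hS i hi).card (hS i hi).loc
      have h1 : θ * X * (cV / Real.log X ^ (r + 1)) ≤ ((B : ℝ) - A) * VF (F i) X :=
        mul_le_mul hAB hV (by positivity) hABr.le
      have h2 : w * Real.log X / (2 * X) ≤ p := by
        rw [hp, div_le_div_iff₀ (by positivity) hP0]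
        have h3 : ((PI A B).card : ℝ) * Real.log X ≤ 2 * X := by
          rw [← mul_div_assoc, le_div_iff₀ hl0] at hPu
          exact hPu
        have := mul_le_mul_of_nonneg_left h3 hm0.le
        linarith
      have h3 : w * Real.log X / (2 * X) * (C * (θ * X * (cV / Real.log X ^ (r + 1)))) ≤
          p * (C * (((B : ℝ) - A) * VF (F i) X)) :=
        mul_le_mul h2 (mul_le_mul_of_nonneg_left h1 hC.le) (by positivity) hp0.le
      refine le_trans ?_ (mul_le_mul_of_nonneg_left h3 (show 0 ≤ ε1 ^ 2 by positivity))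
      have h4 : ε1 ^ 2 * (w * Real.log X / (2 * X) * (C * (θ * X * (cV / Real.log X ^ (r + 1))))) =
          w * (ε1 ^ 2 * (C * θ * cV) / 2 / Real.log X ^ r) := by
        field_simp
        ring
      rw [h4]
      have h5 := mul_le_mul_of_nonneg_right hm
        (show 0 ≤ ε1 ^ 2 * (C * θ * cV) / 2 / Real.log X ^ r by positivity)
      refine le_trans (le_of_eq ?_) h5
      rw [hK]
      field_simp
      ring)
  have hexp : Real.exp (-((G + D + 4) * Real.log X)) = 1 / (X : ℝ) ^ (G + D + 4) := by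
    rw [Real.exp_neg, one_div]
    congr 1
    rw [show ((G : ℝ) + D + 4) * Real.log X = ((G + D + 4 : ℕ) : ℝ) * Real.log X by push_cast; ring, Real.exp_nat_mul,
      Real.exp_log hXr]
  rw [hexp] at hmost
  have hsub : (powersetCard w (PI A B)).filter (fun S => ¬ ∀ i ∈ I,
      |((S ∩ R i).card : ℝ) - p * (R i).card| ≤ ε * (p * (((B : ℝ) - A) * VF (F i) X))) ⊆
      (powersetCard w (PI A B)).filter (fun S => ¬ ∀ i ∈ I,
        |((S ∩ R i).card : ℝ) - (w / (PI A B).card : ℝ) * (R i).card| ≤ ε1 * U i) := by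
    intro S hS'
    rw [mem_filter] at hS' ⊢
    refine ⟨hS'.1, fun hall => hS'.2 fun i hi => ?_⟩
    refine (hall i hi).trans ?_
    show ε1 * (p * (C * (((B : ℝ) - A) * VF (F i) X))) ≤ ε * (p * (((B : ℝ) - A) * VF (F i) X))
    have h2 : 0 ≤ p * (((B : ℝ) - A) * VF (F i) X) :=
      mul_nonneg hp0.le (mul_nonneg hABr.le (VF_mono (hS i hi).loc le_rfl).2)
    have := mul_le_mul_of_nonneg_right hε13 h2
    linarith
  have h1 : (((powersetCard w (PI A B)).filter (fun S => ¬ ∀ i ∈ I,
      |((S ∩ R i).card : ℝ) - p * (R i).card| ≤ ε * (p * (((B : ℝ) - A) * VF (F i) X)))).card : ℝ) ≤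
      ((PI A B).card.choose w : ℝ) * (((PI A B).card + 1) * (2 * I.card * (1 / (X : ℝ) ^ (G + D + 4)))) := by
    refine le_trans ?_ hmost
    exact_mod_cast card_le_card hsub
  have h2 : (((PI A B).card : ℝ) + 1) * (2 * I.card * (1 / (X : ℝ) ^ (G + D + 4))) ≤ 1 / (X : ℝ) ^ G := by
    have h3 : (I.card : ℝ) ≤ (X : ℝ) ^ D := by exact_mod_cast hI
    have h4 : (((PI A B).card : ℝ) + 1) * (2 * I.card) ≤ (X : ℝ) ^ (D + 4) := by
      calc (((PI A B).card : ℝ) + 1) * (2 * I.card) ≤ (2 * X) * (2 * (X : ℝ) ^ D) := by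
            apply mul_le_mul (by linarith) (by linarith) (by positivity) (by positivity)
        _ = (4 * X) * (X : ℝ) ^ D := by ring
        _ ≤ (X : ℝ) ^ 4 * (X : ℝ) ^ D := by
            apply mul_le_mul_of_nonneg_right _ (by positivity)
            have h6 : (9 : ℝ) ≤ (X : ℝ) ^ 2 := by nlinarith
            calc 4 * (X : ℝ) ≤ X * X ^ 2 := by nlinarith
              _ ≤ X ^ 2 * X ^ 2 := by
                  apply mul_le_mul_of_nonneg_right _ (by positivity)
                  nlinarith
              _ = _ := by ring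
        _ = _ := by ring
    calc (((PI A B).card : ℝ) + 1) * (2 * I.card * (1 / (X : ℝ) ^ (G + D + 4))) =
        ((((PI A B).card : ℝ) + 1) * (2 * I.card)) * (1 / (X : ℝ) ^ (G + D + 4)) := by ring
      _ ≤ (X : ℝ) ^ (D + 4) * (1 / (X : ℝ) ^ (G + D + 4)) := mul_le_mul_of_nonneg_right h4 (by positivity)
      _ = 1 / (X : ℝ) ^ G := by
        rw [show G + D + 4 = (D + 4) + G by ring, pow_add _ (D + 4) G]
        field_simp
  have h3 := h1.trans (mul_le_mul_of_nonneg_left h2 (Nat.cast_nonneg _))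
  have h4 := mul_le_mul_of_nonneg_right h3 (show 0 ≤ (X : ℝ) ^ G by positivity)
  refine h4.trans (le_of_eq ?_)
  field_simp

/-- the regularity of a set `S` of primes of `(x, 2 x]` -/
def GoldRegular (c C ε : ℝ) (x w : ℕ) (S : Finset ℕ) : Prop := ∀ N : ℕ, Even N → 4 * x ≤ N → N ≤ 8 * x →
  c * (N / N.totient * (w / Real.log N)) ≤ chen (((8 * x : ℕ) : ℝ) ^ (1 / 9 : ℝ)) S N ∧
  chen (((8 * x : ℕ) : ℝ) ^ (1 / 9 : ℝ)) S N ≤ C * (N / N.totient * (w / Real.log N)) ∧
  |(gold S N : ℝ) - w / (PI x (2 * x)).card * gold (PI x (2 * x)) N| ≤ ε * (N / N.totient * (w / Real.log N))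

open Classical in
/-- **Almost all sets of `w` primes represent the Goldbach and the Chen counts of all even numbers.** -/
theorem goldMostly : ∃ c C : ℝ, 0 < c ∧ 0 < C ∧ ∀ ε : ℝ, 0 < ε → ∀ G : ℕ, ∃ K : ℝ, 0 < K ∧ ∃ x₀ : ℕ, ∀ x : ℕ,
    x₀ ≤ x → ∀ w : ℕ, K * Real.log x ^ 2 ≤ w → w ≤ (PI x (2 * x)).card →
      ((powersetCard w (PI x (2 * x))).filter (fun S => ¬ GoldRegular c C ε x w S)).card * x ^ G ≤
        (PI x (2 * x)).card.choose w := by
  obtain ⟨t0, ht0, c0, hc0, hgen, -⟩ := genF 1
  set t := max t0 9 with htdef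
  have ht1 : 1 ≤ t := ht0.trans (le_max_left _ _)
  have ht9 : 9 ≤ t := le_max_right _ _
  obtain ⟨C0, hC0, hup⟩ := upper1 1 t ht1
  obtain ⟨c1, hc1, R₀, hrat⟩ := VF_ratio 1
  obtain ⟨c2, hc2, hVlow⟩ := VG_low
  obtain ⟨C2, hC2, hVup⟩ := VG_up
  obtain ⟨X₁, hX₁⟩ := hgen (1 / 8) (by norm_num)
  obtain ⟨X₂, hX₂⟩ := hup (1 / 8) (by norm_num)
  obtain ⟨X₃, hX₃⟩ := PI_upper
  obtain ⟨X₄, hX₄⟩ := PI_lower
  refine ⟨c0 / 2 * (c1 * c2 / 64), (C0 + 1) * (2 * C2), by positivity, by positivity, ?_⟩
  intro ε hε G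
  set ε' : ℝ := min (min (c0 / 2) 1) (ε / (2 * C2)) with hε'
  have hε'0 : 0 < ε' := by positivity
  have e1 : ε' ≤ c0 / 2 := (min_le_left _ _).trans (min_le_left _ _)
  have e2 : ε' ≤ 1 := (min_le_left _ _).trans (min_le_right _ _)
  have e4 : ε' * (2 * C2) ≤ ε := by
    have h1 : ε' ≤ ε / (2 * C2) := min_le_right _ _
    rwa [le_div_iff₀ (by positivity)] at h1
  obtain ⟨K, hK, X₅, hX₅⟩ := family 1 t ht1 2 G (1 / 8) ε' (by norm_num) hε'0
  refine ⟨K * 4, by positivity, max (max (max X₁ X₂) (max X₃ X₄)) (max X₅ (max R₀ 8)), ?_⟩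
  intro x hx w hm hmP
  have hx1 : X₁ ≤ x := le_trans (le_trans (le_max_left _ _) (le_max_left _ _)) ((le_max_left _ _).trans hx)
  have hx2 : X₂ ≤ x := le_trans (le_trans (le_max_right _ _) (le_max_left _ _)) ((le_max_left _ _).trans hx)
  have hx3 : X₃ ≤ x := le_trans (le_trans (le_max_left _ _) (le_max_right _ _)) ((le_max_left _ _).trans hx)
  have hx4 : X₄ ≤ x := le_trans (le_trans (le_max_right _ _) (le_max_right _ _)) ((le_max_left _ _).trans hx)
  have hx5 : X₅ ≤ x := le_trans (le_max_left _ _) ((le_max_right _ _).trans hx)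
  have hxR : R₀ ≤ x := le_trans (le_max_left _ _) (le_trans (le_max_right _ _) ((le_max_right _ _).trans hx))
  have hx8 : 8 ≤ x := le_trans (le_max_right _ _) (le_trans (le_max_right _ _) ((le_max_right _ _).trans hx))
  have hxr : (8 : ℝ) ≤ x := by exact_mod_cast hx8
  have hx0 : (0 : ℝ) < x := by linarith
  have hl : 0 < Real.log x := Real.log_pos (by linarith)
  have hlX : Real.log ((8 * x : ℕ) : ℝ) ≤ 2 * Real.log x := by
    have h1 : ((8 * x : ℕ) : ℝ) ≤ (x : ℝ) ^ 2 := by
      push_cast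
      nlinarith
    have h2 := Real.log_le_log (by positivity) h1
    rwa [Real.log_pow, Nat.cast_ofNat] at h2
  have hlX0 : 0 < Real.log ((8 * x : ℕ) : ℝ) := Real.log_pos (by exact_mod_cast (by omega : 1 < 8 * x))
  have hlX1 : Real.log x ≤ Real.log ((8 * x : ℕ) : ℝ) :=
    Real.log_le_log hx0 (by exact_mod_cast (by omega : x ≤ 8 * x))
  have hm0 : (0 : ℝ) < w := lt_of_lt_of_le (by positivity) hm
  have hmPr : (w : ℝ) ≤ (PI x (2 * x)).card := by exact_mod_cast hmP
  have hP0 : (0 : ℝ) < (PI x (2 * x)).card := lt_of_lt_of_le hm0 hmPr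
  have hPlow := hX₄ x hx4
  have hPup := hX₃ (8 * x) (by omega) x (2 * x) (by omega)
  have hAB : (1 / 8 : ℝ) * ((8 * x : ℕ) : ℝ) ≤ ((2 * x : ℕ) : ℝ) - x := by
    push_cast
    linarith
  have hABe : ((2 * x : ℕ) : ℝ) - x = x := by
    push_cast
    ring
  set I : Finset (ℕ × Bool) := ((Icc (4 * x) (8 * x)).filter (fun N => Even N)) ×ˢ univ with hI
  have hIm : ∀ i ∈ I, Even i.1 ∧ 4 * x ≤ i.1 ∧ i.1 ≤ 8 * x := by
    intro i hi
    rw [hI, mem_product, mem_filter, mem_Icc] at hi
    exact ⟨hi.1.2, hi.1.1.1, hi.1.1.2⟩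
  set R : ℕ × Bool → Finset ℕ := fun i =>
    (GoodF t (8 * x) x (2 * x) (fun _ => {(i.1 : ℤ)}) i.1).filter (fun p => i.2 = true → (i.1 - p).Prime) with hR
  have hfam := hX₅ (8 * x) (by omega) x (2 * x) (by omega) hAB (ℕ × Bool) I
    (fun i => fun _ => {(i.1 : ℤ)}) (fun i => i.1) R (by
      intro i hi
      obtain ⟨h1, h2, h3⟩ := hIm i hi
      exact sysN (by omega) h1 h3) (fun i _ => filter_subset _ _) (by
      rw [hI, card_product, Finset.card_univ, Fintype.card_bool]
      have h1 : ((Icc (4 * x) (8 * x)).filter (fun N => Even N)).card ≤ 4 * x + 1 := by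
        refine (card_filter_le _ _).trans ?_
        rw [Nat.card_Icc]
        omega
      nlinarith) w (by
      refine le_trans ?_ hm
      have h1 : Real.log ((8 * x : ℕ) : ℝ) ^ (1 + 1) ≤ 4 * Real.log x ^ 2 := by
        have := pow_le_pow_left₀ hlX0.le hlX 2
        calc _ = Real.log ((8 * x : ℕ) : ℝ) ^ 2 := rfl
          _ ≤ (2 * Real.log x) ^ 2 := this
          _ = _ := by ring
      have := mul_le_mul_of_nonneg_left h1 hK.le
      linarith) hmP
  have hfin : (((powersetCard w (PI x (2 * x))).filter (fun S => ¬ GoldRegular (c0 / 2 * (c1 * c2 / 64))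
      ((C0 + 1) * (2 * C2)) ε x w S)).card : ℝ) * (x : ℝ) ^ G ≤ (PI x (2 * x)).card.choose w := by
    refine le_trans ?_ hfam
    apply mul_le_mul _ _ (by positivity) (by positivity)
    · apply Nat.cast_le.2
      apply card_le_card
      intro S hS'
      rw [mem_filter] at hS' ⊢
      refine ⟨hS'.1, fun hSR => hS'.2 ?_⟩
      have hSP : S ⊆ PI x (2 * x) := (mem_powersetCard.1 hS'.1).1
      intro N hNe hN4 hN8
      have hN2 : 2 ≤ N := by omega
      have hNr : (0 : ℝ) < N := by exact_mod_cast (by omega : 0 < N)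
      have hφ : (0 : ℝ) < N.totient := by exact_mod_cast Nat.totient_pos.2 (by omega)
      have hlN : 0 < Real.log N := Real.log_pos (by exact_mod_cast (by omega : 1 < N))
      have hlNx : Real.log N ≤ 2 * Real.log x :=
        (Real.log_le_log hNr (by exact_mod_cast hN8)).trans hlX
      have hlxN : Real.log x ≤ Real.log N := Real.log_le_log hx0 (by exact_mod_cast (by omega : x ≤ N))
      have hsys := sysN hN2 hNe hN8
      set V : ℝ := VF (fun _ => {(N : ℤ)}) (8 * x) with hV
      have hVlo : c1 * (c2 * (N / (N.totient * Real.log N ^ 2))) ≤ V := by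
        refine le_trans (mul_le_mul_of_nonneg_left (hVlow N hN2 hNe) hc1.le) ?_
        exact hrat N (8 * x) (by omega) hN8 (by nlinarith) _ hsys.card hsys.loc
      have hVhi : V ≤ C2 * (N / (N.totient * Real.log N ^ 2)) :=
        (VF_mono hsys.loc hN8).1.trans (hVup N hN2 hNe)
      set E : ℝ := w / (PI x (2 * x)).card * (((2 * x : ℕ) : ℝ) - x) * V with hE
      have hElo : c1 * c2 / 64 * (N / N.totient * (w / Real.log N)) ≤ E := by
        rw [hE, hABe]
        have h1 : w * (Real.log x / (16 * x)) ≤ w / (PI x (2 * x)).card := by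
          rw [div_eq_mul_inv (w : ℝ)]
          apply mul_le_mul_of_nonneg_left _ hm0.le
          rw [← one_div, div_le_div_iff₀ (by positivity) hP0]
          rw [← mul_div_assoc, le_div_iff₀ hlX0] at hPup
          push_cast at hPup
          have h2 := mul_le_mul_of_nonneg_left hlX1 hP0.le
          push_cast at h2
          linarith
        have h2 : w * (Real.log x / (16 * x)) * x * (c1 * (c2 * (N / (N.totient * Real.log N ^ 2)))) ≤
            w / (PI x (2 * x)).card * x * V :=
          mul_le_mul (mul_le_mul_of_nonneg_right h1 hx0.le) hVlo (by positivity) (by positivity)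
        refine le_trans ?_ h2
        have h3 : w * (Real.log x / (16 * x)) * x * (c1 * (c2 * (N / (N.totient * Real.log N ^ 2)))) =
            c1 * c2 / 64 * (N / N.totient * (w / Real.log N)) * (4 * (Real.log x / Real.log N)) := by
          field_simp
          ring
        rw [h3]
        apply le_mul_of_one_le_right (by positivity)
        rw [← mul_div_assoc, le_div_iff₀ hlN]
        linarith
      have hEhi : E ≤ 2 * C2 * (N / N.totient * (w / Real.log N)) := by
        rw [hE, hABe]
        have h1 : w / (PI x (2 * x)).card ≤ w * (2 * Real.log x / x) := by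
          rw [div_eq_mul_inv (w : ℝ)]
          apply mul_le_mul_of_nonneg_left _ hm0.le
          rw [← one_div, div_le_div_iff₀ hP0 (by positivity)]
          have h2 : (x : ℝ) / 2 ≤ (PI x (2 * x)).card * Real.log x := by
            have h3 := mul_le_mul_of_nonneg_right hPlow hl.le
            have h4 : 1 / 2 * ((x : ℝ) / Real.log x) * Real.log x = x / 2 := by
              field_simp
            rw [h4] at h3
            exact h3
          linarith
        have hV0 : 0 ≤ V := (VF_mono hsys.loc le_rfl).2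
        have h2 : w / (PI x (2 * x)).card * x * V ≤
            w * (2 * Real.log x / x) * x * (C2 * (N / (N.totient * Real.log N ^ 2))) :=
          mul_le_mul (mul_le_mul_of_nonneg_right h1 hx0.le) hVhi hV0 (by positivity)
        refine h2.trans ?_
        have h3 : w * (2 * Real.log x / x) * x * (C2 * (N / (N.totient * Real.log N ^ 2))) =
            2 * C2 * (N / N.totient * (w / Real.log N)) * (Real.log x / Real.log N) := by
          field_simp
        rw [h3]
        apply mul_le_of_le_one_right (by positivity)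
        rw [div_le_one hlN]
        exact hlxN
      have hE0 : 0 ≤ E := le_trans (by positivity) hElo
      have hI1 : ∀ b : Bool, (N, b) ∈ I := by
        intro b
        rw [hI, mem_product, mem_filter, mem_Icc]
        exact ⟨⟨⟨hN4, hN8⟩, hNe⟩, mem_univ _⟩
      have hEm : w / (PI x (2 * x)).card * ((((2 * x : ℕ) : ℝ) - x) * V) = E := by
        rw [hE]
        ring
      -- the Chen counts
      have hchen : (S ∩ R (N, false)).card = chen (((8 * x : ℕ) : ℝ) ^ (1 / 9 : ℝ)) S N := by
        unfold chen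
        congr 1
        ext p
        rw [hR, mem_inter, mem_filter, mem_filter, mem_good ht9 hx8 hN4 hN8]
        constructor
        · rintro ⟨h1, ⟨_, h2⟩, _⟩
          exact ⟨h1, h2⟩
        · rintro ⟨h1, h2⟩
          exact ⟨h1, ⟨hSP h1, h2⟩, by simp⟩
      have hz : ((8 * x : ℕ) : ℝ) ^ (1 / 9 : ℝ) ≤ x := by
        have h8 : ((8 * x : ℕ) : ℝ) ≤ (x : ℝ) ^ (2 : ℝ) := by
          rw [Real.rpow_two]
          push_cast
          nlinarith
        have h1 := Real.rpow_le_rpow (by positivity) h8 (show (0 : ℝ) ≤ 1 / 9 by norm_num)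
        rw [← Real.rpow_mul hx0.le] at h1
        refine h1.trans ?_
        have := Real.rpow_le_rpow_of_exponent_le (show (1 : ℝ) ≤ x by linarith) (show (2 * (1 / 9) : ℝ) ≤ 1 by norm_num)
        rwa [Real.rpow_one] at this
      have hgoldT : ∀ T : Finset ℕ, T ⊆ PI x (2 * x) → (T ∩ R (N, true)).card = gold T N := by
        intro T hT
        unfold gold
        congr 1
        ext p
        rw [hR, mem_inter, mem_filter, mem_filter, mem_good ht9 hx8 hN4 hN8]
        constructor
        · rintro ⟨h1, ⟨_, _⟩, h3⟩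
          exact ⟨h1, h3 rfl⟩
        · rintro ⟨h1, h2⟩
          have hpP := hT h1
          refine ⟨h1, ⟨hpP, Or.inl h2, ?_⟩, fun _ => h2⟩
          intro q hq hd
          have h3 := (Nat.prime_dvd_prime_iff_eq hq h2).1 hd
          unfold PI at hpP
          rw [mem_filter, mem_Ioc] at hpP
          have h4 : x < q := by omega
          have h5 : (x : ℝ) < q := by exact_mod_cast h4
          linarith
      have k1 := hSR (N, false) (hI1 false)
      have k2 := hSR (N, true) (hI1 true)
      simp only at k1 k2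
      rw [← hV, hEm] at k1 k2
      rw [hchen] at k1
      have hPR : (R (N, true)).card = gold (PI x (2 * x)) N := by
        rw [← hgoldT _ (Subset.refl _)]
        congr 1
        symm
        apply inter_eq_right.2
        intro p hp
        rw [hR, mem_filter, mem_good ht9 hx8 hN4 hN8] at hp
        exact hp.1.1
      rw [hgoldT S hSP, hPR] at k2
      have hRf : (R (N, false)).card = (GoodF t (8 * x) x (2 * x) (fun _ => {(N : ℤ)}) N).card := by
        congr 1
        rw [hR]
        apply filter_true_of_mem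
        intro p _ h
        exact absurd h (by simp)
      rw [hRf] at k1
      have g1 := hX₁ (8 * x) (by omega) (fun _ => {(N : ℤ)}) N hsys x (2 * x) (by omega) hAB
      have g2 := hX₂ (8 * x) (by omega) (fun _ => {(N : ℤ)}) N hsys x (2 * x) (by omega) hAB
      have g3 : ((GoodF t0 (8 * x) x (2 * x) (fun _ => {(N : ℤ)}) N).card : ℝ) ≤
          (GoodF t (8 * x) x (2 * x) (fun _ => {(N : ℤ)}) N).card := by
        exact_mod_cast card_le_card (GoodF_t ht0 (le_max_left _ _) (by omega) _ _)
      rw [← hV] at g1 g2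
      have hp0 : 0 ≤ (w : ℝ) / ((PI x (2 * x)).card : ℝ) := by positivity
      have g4 : c0 * E ≤ w / (PI x (2 * x)).card * (GoodF t (8 * x) x (2 * x) (fun _ => {(N : ℤ)}) N).card := by
        have := mul_le_mul_of_nonneg_left (g1.trans g3) hp0
        refine le_trans (le_of_eq ?_) this
        rw [hE]
        ring
      have g5 : w / (PI x (2 * x)).card * (GoodF t (8 * x) x (2 * x) (fun _ => {(N : ℤ)}) N).card ≤ C0 * E := by
        have := mul_le_mul_of_nonneg_left g2 hp0
        refine le_trans this (le_of_eq ?_)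
        rw [hE]
        ring
      obtain ⟨k3, k4⟩ := abs_le.1 k1
      have h1E := mul_le_mul_of_nonneg_right e1 hE0
      have h2E := mul_le_mul_of_nonneg_right e2 hE0
      refine ⟨?_, ?_, ?_⟩
      · have h1 : c0 / 2 * E ≤ chen (((8 * x : ℕ) : ℝ) ^ (1 / 9 : ℝ)) S N := by linarith
        refine le_trans ?_ h1
        have := mul_le_mul_of_nonneg_left hElo (show 0 ≤ c0 / 2 by positivity)
        linarith
      · have h1 : (chen (((8 * x : ℕ) : ℝ) ^ (1 / 9 : ℝ)) S N : ℝ) ≤ (C0 + 1) * E := by linarith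
        refine h1.trans ?_
        have := mul_le_mul_of_nonneg_left hEhi (show 0 ≤ C0 + 1 by positivity)
        linarith
      · refine k2.trans ?_
        have h1 := mul_le_mul_of_nonneg_left hEhi hε'0.le
        refine h1.trans ?_
        have h2 : 0 ≤ (N : ℝ) / N.totient * (w / Real.log N) := by positivity
        have := mul_le_mul_of_nonneg_right e4 h2
        linarith
    · apply pow_le_pow_left₀ hx0.le
      push_cast
      linarith
  exact_mod_cast hfin

end Pool.Agent.Q204.RS
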