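import Pool.Agent.Q204.RS.Family

/-!
# The primes `p_k` for `k` in a window
-/

set_option autoImplicit false
set_option maxHeartbeats 1000000

namespace Pool.Agent.Q204.RS

open Finset Filter
open Pool.Agent.Y840.CT
open Pool.Agent.Q253.Thin

/-- `nn i` is the prime with the number `i`, `nn 0 = 2` -/
noncomputable def nn (i : ℕ) : ℕ := Nat.nth Nat.Prime i

theorem nn_prime (i : ℕ) : (nn i).Prime := Nat.prime_nth_prime i

theorem nn_strictMono : StrictMono nn := Nat.nth_strictMono Nat.infinite_setOfPred_prime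

theorem nn_ge (i : ℕ) : i + 1 ≤ nn i := by
  induction i with
  | zero => exact (nn_prime 0).one_lt.le
  | succ i ih =>
    have := nn_strictMono (Nat.lt_succ_self i)
    simp only [Nat.succ_eq_add_one] at this
    omega

theorem nn_ge2 (i : ℕ) : i + 2 ≤ nn i := by
  induction i with
  | zero => exact (nn_prime 0).two_le
  | succ i ih =>
    have := nn_strictMono (Nat.lt_succ_self i)
    simp only [Nat.succ_eq_add_one] at this
    omega

theorem pc_nn (i : ℕ) : Nat.primeCounting (nn i) = i + 1 := by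
  unfold nn
  rw [Nat.primeCounting, Nat.primeCounting', Nat.count_succ, Nat.count_nth_of_infinite Nat.infinite_setOfPred_prime,
    if_pos (Nat.prime_nth_prime i)]

/-- the prime number theorem for the `i`-th prime -/
theorem nn_bounds (η : ℝ) (hη : 0 < η) : ∃ i₀ : ℕ, ∀ i : ℕ, i₀ ≤ i →
    (1 - η) * nn i ≤ (i + 1) * Real.log (nn i) ∧ (i + 1) * Real.log (nn i) ≤ (1 + η) * nn i := by
  have h1 := Pool.Agent.Helper507.PNT.pi_tendsto
  have h2 := (h1.eventually (Icc_mem_nhds (show 1 - η < 1 by linarith) (show 1 < 1 + η by linarith)))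
  obtain ⟨X₀, hX₀⟩ := eventually_atTop.1 (tendsto_natCast_atTop_atTop (R := ℝ) |>.eventually h2)
  refine ⟨X₀, fun i hi => ?_⟩
  have h3 := hX₀ (nn i) (hi.trans ((Nat.le_succ i).trans (nn_ge i)))
  simp only [Nat.floor_natCast] at h3
  rw [pc_nn] at h3
  have h0 : (0 : ℝ) < nn i := by exact_mod_cast (nn_prime i).pos
  obtain ⟨h4, h5⟩ := h3
  rw [le_div_iff₀ h0] at h4
  rw [div_le_iff₀ h0] at h5
  push_cast at h4 h5
  exact ⟨by linarith, by linarith⟩

/-- the length of the window of the primes with the numbers in `[a, a + x)`, `x ≤ a + 1`, `a + x ≤ 5 x` -/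
theorem nn_window : ∃ x₀ : ℕ, ∀ x : ℕ, x₀ ≤ x →
    Real.log (nn (6 * x - 1)) ≤ 3 * Real.log x ∧ (nn (6 * x - 1) : ℝ) ≤ 21 * (x * Real.log x) ∧
    ∀ a : ℕ, x ≤ a + 1 → a + x ≤ 5 * x → x * Real.log x / 2 ≤ (nn (a + x) : ℝ) - nn a := by
  obtain ⟨i₀, hi₀⟩ := nn_bounds (1 / 24) (by norm_num)
  refine ⟨max (i₀ + 1) 200, fun x hx => ?_⟩
  have hx1 : i₀ + 1 ≤ x := (le_max_left _ _).trans hx
  have hx2 : 200 ≤ x := (le_max_right _ _).trans hx
  have hxr : (200 : ℝ) ≤ x := by exact_mod_cast hx2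
  have hlx : 0 < Real.log x := Real.log_pos (by linarith)
  set P : ℝ := (nn (6 * x - 1) : ℝ) with hP
  have hPn : 6 * x ≤ nn (6 * x - 1) := by
    have := nn_ge (6 * x - 1)
    omega
  have hP6 : (6 : ℝ) * x ≤ P := by
    rw [hP]
    exact_mod_cast hPn
  have hP0 : 0 < P := by linarith
  have h1 := (hi₀ (6 * x - 1) (by omega)).1
  have e1 : ((6 * x - 1 : ℕ) : ℝ) + 1 = 6 * x := by
    rw [Nat.cast_sub (by omega)]
    push_cast
    ring
  rw [e1, ← hP] at h1
  have hsq : Real.log P ≤ 2 * Real.sqrt P := by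
    have h2 := Real.log_le_sub_one_of_pos (Real.sqrt_pos.2 hP0)
    have h3 : Real.log P = 2 * Real.log (Real.sqrt P) := by
      rw [Real.log_sqrt hP0.le]
      ring
    rw [h3]
    linarith
  have hP2 : P ≤ (x : ℝ) ^ 3 := by
    have h3 : Real.sqrt P * Real.sqrt P = P := Real.mul_self_sqrt hP0.le
    have h4 : 0 < Real.sqrt P := Real.sqrt_pos.2 hP0
    have h5 : (23 / 24 : ℝ) * (Real.sqrt P * Real.sqrt P) ≤ 12 * x * Real.sqrt P := by
      rw [h3]
      have h6 : 6 * (x : ℝ) * Real.log P ≤ 6 * x * (2 * Real.sqrt P) :=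
        mul_le_mul_of_nonneg_left hsq (by positivity)
      linarith
    have h7 : Real.sqrt P ≤ 13 * x := by
      have h8 : (23 / 24 : ℝ) * Real.sqrt P ≤ 12 * x := by
        by_contra hcon
        push Not at hcon
        have := mul_lt_mul_of_pos_right hcon h4
        linarith
      linarith
    have h9 : P ≤ (13 * x) * (13 * x) := by
      rw [← h3]
      exact mul_le_mul h7 h7 h4.le (by positivity)
    have h10 : 0 ≤ (x : ℝ) * x := by positivity
    have h11 : (x : ℝ) * x * 169 ≤ x * x * x := mul_le_mul_of_nonneg_left (by linarith) h10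
    calc P ≤ (13 * x) * (13 * x) := h9
      _ = x * x * 169 := by ring
      _ ≤ x * x * x := h11
      _ = (x : ℝ) ^ 3 := by ring
  have hlP : Real.log P ≤ 3 * Real.log x := by
    have := Real.log_le_log hP0 hP2
    rw [Real.log_pow] at this
    exact_mod_cast this
  refine ⟨hlP, ?_, ?_⟩
  · have h2 : 6 * (x : ℝ) * Real.log P ≤ 6 * x * (3 * Real.log x) :=
      mul_le_mul_of_nonneg_left hlP (by positivity)
    have h3 : 0 < (x : ℝ) * Real.log x := mul_pos (by linarith) hlx
    linarith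
  · intro a ha1 ha2
    have h2 := (hi₀ a (by omega)).1
    have h3 := (hi₀ (a + x) (by omega)).2
    have h4 : x ≤ nn a := ha1.trans (nn_ge a)
    have h5 : (x : ℝ) ≤ nn a := by exact_mod_cast h4
    have h6 : nn a ≤ nn (a + x) := nn_strictMono.monotone (by omega)
    have h7 : (nn a : ℝ) ≤ nn (a + x) := by exact_mod_cast h6
    have h8 : Real.log x ≤ Real.log (nn a) := Real.log_le_log (by linarith) h5
    have h9 : Real.log (nn a) ≤ Real.log (nn (a + x)) := Real.log_le_log (by linarith) h7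
    set La := Real.log (nn a) with hLa
    have ha5 : (a : ℝ) + 1 ≤ 5 * x := by
      have : a + 1 ≤ 5 * x := by omega
      exact_mod_cast this
    have ha0 : (0 : ℝ) ≤ a := Nat.cast_nonneg a
    have h10 : ((a : ℝ) + x + 1) * La ≤ (1 + 1 / 24) * nn (a + x) := by
      refine le_trans ?_ h3
      push_cast
      exact mul_le_mul_of_nonneg_left h9 (by positivity)
    -- subtract
    have h11 : (nn (a + x) : ℝ) ≥ 24 / 25 * ((a + x + 1) * La) := by linarith
    have h12 : (nn a : ℝ) ≤ 24 / 23 * ((a + 1) * La) := by linarith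
    have h13 : (nn (a + x) : ℝ) - nn a ≥ (24 / 25 * (a + x + 1) - 24 / 23 * (a + 1)) * La := by linarith
    have h14 : (x : ℝ) / 2 ≤ 24 / 25 * (a + x + 1) - 24 / 23 * (a + 1) := by linarith
    have h15 : (x : ℝ) / 2 * La ≤ (24 / 25 * (a + x + 1) - 24 / 23 * (a + 1)) * La :=
      mul_le_mul_of_nonneg_right h14 (hlx.le.trans h8)
    have h16 : (x : ℝ) / 2 * Real.log x ≤ x / 2 * La := mul_le_mul_of_nonneg_left h8 (by positivity)
    linarith

/-- the constant system -/
def F2 : ℕ → Finset ℤ := fun _ => {-2}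

theorem sys2 {X : ℕ} (hX : 2 ≤ X) : SysF 1 X F2 (-2) where
  card q _ := by simp [F2]
  ne := by norm_num
  size := by
    norm_num
    exact_mod_cast hX
  mem q _ := by simp [F2]
  loc q hq := by
    unfold F2
    rw [rho_single]
    split_ifs with h
    · exact hq.one_lt
    · rcases hq.two_le.eq_or_lt with h2 | h2
      · exfalso
        apply h
        rw [← h2]
        norm_num
      · exact h2

/-- the upper bound for the sieve product -/
theorem VT_up : ∃ C : ℝ, 0 < C ∧ ∀ X : ℕ, 2 ≤ X → VF F2 X ≤ C / Real.log X ^ 2 := by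
  obtain ⟨c, C, hc, hC, hV⟩ := Pool.Agent.Y843.HG.V1_bounds
  refine ⟨2 * C ^ 2, by positivity, ?_⟩
  intro X hX
  have h2X : 2 ∈ (Icc 1 X).filter Nat.Prime := by
    rw [mem_filter, mem_Icc]
    exact ⟨⟨by norm_num, hX⟩, Nat.prime_two⟩
  have hV1 : Pool.Agent.Y843.HG.V1 X = ∏ q ∈ (Icc 1 X).filter Nat.Prime, (1 - 1 / (q : ℝ)) := by
    unfold Pool.Agent.Y843.HG.V1
    apply prod_congr _ (fun _ _ => rfl)
    ext q
    rw [Pool.Agent.Y843.HS.Pr_mem, mem_filter, mem_Icc]
    constructor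
    · rintro ⟨⟨a, b⟩, c⟩
      exact ⟨⟨c.pos, b⟩, c⟩
    · rintro ⟨⟨a, b⟩, c⟩
      exact ⟨⟨c.pos, b⟩, c⟩
  have hle : VF F2 X ≤ 2 * (Pool.Agent.Y843.HG.V1 X) ^ 2 := by
    have hF : ∀ q : ℕ, F2 q = {-2} := fun _ => rfl
    rw [hV1]
    unfold VF
    rw [← mul_prod_erase _ _ h2X, ← mul_prod_erase _ (fun q : ℕ => (1 - 1 / (q : ℝ))) h2X]
    have e2 : (1 - (rho (F2 2) 2 : ℝ) / (2 : ℕ)) = 1 / 2 := by
      rw [hF]
      have : rho {-2} 2 = 1 := by decide
      rw [this]
      norm_num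
    rw [e2, mul_pow, ← prod_pow]
    have h3 : ∏ q ∈ ((Icc 1 X).filter Nat.Prime).erase 2, (1 - (rho (F2 q) q : ℝ) / q) ≤
        ∏ q ∈ ((Icc 1 X).filter Nat.Prime).erase 2, (1 - 1 / (q : ℝ)) ^ 2 := by
      apply Finset.prod_le_prod
      · intro q hq
        rw [mem_erase, mem_filter] at hq
        have h1 := (sys2 (X := 2) le_rfl).loc q hq.2.2
        have h0 : (0 : ℝ) < q := by exact_mod_cast hq.2.2.pos
        rw [sub_nonneg, div_le_one h0]
        exact_mod_cast h1.le
      · intro q hq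
        rw [mem_erase, mem_filter] at hq
        have h0 : (0 : ℝ) < q := by exact_mod_cast hq.2.2.pos
        rw [hF, rho_single]
        have hnd : ¬ (q : ℤ) ∣ -2 := by
          intro hd
          have h1 : q ∣ 2 := by
            have := Int.natCast_dvd.1 hd
            simpa using this
          have h2 := Nat.le_of_dvd (by norm_num) h1
          have h3 := hq.2.2.two_le
          omega
        rw [if_neg hnd]
        have h4 : (1 - 1 / (q : ℝ)) ^ 2 = 1 - 2 / q + (1 / (q : ℝ)) ^ 2 := by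
          field_simp
          ring
        rw [h4]
        have : (0 : ℝ) ≤ (1 / (q : ℝ)) ^ 2 := by positivity
        push_cast
        linarith
    have h5 : (0 : ℝ) ≤ ∏ q ∈ ((Icc 1 X).filter Nat.Prime).erase 2, (1 - 1 / (q : ℝ)) ^ 2 :=
      prod_nonneg fun q _ => by positivity
    push_cast
    nlinarith
  have h6 := (hV X hX).2
  have h7 := pow_le_pow_left₀ (Pool.Agent.Y843.HG.V1_pos X).le h6 2
  rw [div_pow] at h7
  calc VF F2 X ≤ 2 * (Pool.Agent.Y843.HG.V1 X) ^ 2 := hle
    _ ≤ 2 * (C ^ 2 / Real.log X ^ 2) := by linarith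
    _ = _ := by ring

end Pool.Agent.Q204.RS
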